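import Pool.Agent.D0H98.NL.Base

/-! # Two signs -/

set_option autoImplicit false

open Set Topology Metric Function
open Filter hiding mk
open scoped ContDiff RealInnerProductSpace

noncomputable section

namespace Pool.Agent.D0H98.NL

open Pool.Agent.D0H39.NL

/-- a symmetric operator with small norm and `|⟪k, N k⟫| ≤ C ‖N k‖²` is zero -/
lemma zero_of_both {n : ℕ} (N : E n →L[ℝ] E n) (hN : ∀ x y, ⟪N x, y⟫ = ⟪x, N y⟫) {C : ℝ}
    (hC : 0 < C) (hCN : C * ‖N‖ < 1) (h : ∀ k, |⟪k, N k⟫| ≤ C * ‖N k‖ ^ 2) (k : E n) :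
    N k = 0 := by
  set l : E n := C • N k with hl
  have h1 := (abs_le.1 (h (k + l))).2
  have h2 := (abs_le.1 (h (k - l))).1
  rw [map_add, inner_add_left, inner_add_right, inner_add_right] at h1
  rw [map_sub, inner_sub_left, inner_sub_right, inner_sub_right] at h2
  have e1 : ⟪k, N l⟫ = ⟪N k, l⟫ := (hN k l).symm
  have e2 : ⟪l, N k⟫ = ⟪N k, l⟫ := real_inner_comm _ _
  have e3 : ⟪N k, l⟫ = C * ‖N k‖ ^ 2 := by
    rw [hl, inner_smul_right, real_inner_self_eq_norm_sq]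
  have e4 : ‖N k + N l‖ ^ 2 + ‖N k - N l‖ ^ 2 = 2 * (‖N k‖ ^ 2 + ‖N l‖ ^ 2) := by
    have := parallelogram_law_with_norm ℝ (N k) (N l)
    nlinarith
  have e5 : ‖N l‖ ≤ C * ‖N‖ * ‖N k‖ := by
    calc ‖N l‖ ≤ ‖N‖ * ‖l‖ := N.le_opNorm l
      _ = C * ‖N‖ * ‖N k‖ := by rw [hl, norm_smul, Real.norm_eq_abs, abs_of_pos hC]; ring
  have e6 : ‖N l‖ ^ 2 ≤ (C * ‖N‖) ^ 2 * ‖N k‖ ^ 2 := by
    rw [← mul_pow]
    exact pow_le_pow_left₀ (norm_nonneg _) e5 2
  rw [e1, e2, e3] at h1 h2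
  -- 4 C ‖N k‖² ≤ C (‖N k + N l‖² + ‖N k - N l‖²)
  have h3 : 4 * (C * ‖N k‖ ^ 2) ≤ C * (2 * (‖N k‖ ^ 2 + ‖N l‖ ^ 2)) := by
    rw [← e4]
    linarith
  have h4 : (C * ‖N‖) ^ 2 < 1 := by
    have h0 : 0 ≤ C * ‖N‖ := by positivity
    nlinarith
  have h5 : ‖N k‖ ^ 2 ≤ ‖N l‖ ^ 2 := by
    have : C * ‖N k‖ ^ 2 ≤ C * ‖N l‖ ^ 2 := by nlinarith
    exact le_of_mul_le_mul_left this hC
  have h6 : ‖N k‖ ^ 2 = 0 := by
    have h0 : 0 ≤ ‖N k‖ ^ 2 := sq_nonneg _
    nlinarith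
  have : ‖N k‖ = 0 := by simpa using h6
  exact norm_eq_zero.1 this

theorem t_BOTH (hS : S_SHRINK) : S_BOTH := by
  intro n Λ z P η ρ r h hinj hp hm
  obtain ⟨r0, hr0, hinj⟩ := hinj
  obtain ⟨C1, s1, hC1, hs1, ho1⟩ := hp
  obtain ⟨C2, s2, hC2, hs2, ho2⟩ := hm
  set C : ℝ := C1 + C2 + 1 with hCdef
  have hC0 : 0 < C := by positivity
  obtain ⟨δ, M, hδ, -, hM⟩ := small_ball h (c := 1 / (2 * C)) (by positivity)
  obtain ⟨ρ₁, r₁, hρ₁, -, hch, hW⟩ := hS n Λ z P η ρ r h δ (min r0 (min s1 s2)) hδ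
    (lt_min hr0 (lt_min hs1 hs2))
  have hP := hch.proj
  have hW0 : ∀ x ∈ ball (chi P z) ρ₁, ‖mk P x (η x) - z‖ < r0 := fun x hx =>
    (hW x hx).trans_le (min_le_left _ _)
  have hW1 : ∀ x ∈ ball (chi P z) ρ₁, ‖mk P x (η x) - z‖ < s1 := fun x hx =>
    (hW x hx).trans_le ((min_le_right _ _).trans (min_le_left _ _))
  have hW2 : ∀ x ∈ ball (chi P z) ρ₁, ‖mk P x (η x) - z‖ < s2 := fun x hx =>
    (hW x hx).trans_le ((min_le_right _ _).trans (min_le_right _ _))
  -- the inequality for pairs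
  have pair : ∀ x ∈ ball (chi P z) ρ₁, ∀ x' ∈ ball (chi P z) ρ₁,
      |⟪(mk P x (η x)).1 - (mk P x' (η x')).1, (mk P x (η x)).2 - (mk P x' (η x')).2⟫| ≤
        C * ‖(mk P x (η x)).1 - (mk P x' (η x')).1‖ ^ 2 := by
    intro x hx x' hx'
    have h1 := ho1 _ (hch.mem x hx) _ (hch.mem x' hx') (hW1 x hx) (hW1 x' hx')
    have h2 := ho2 _ (hch.mem x hx) _ (hch.mem x' hx') (hW2 x hx) (hW2 x' hx')
    have h0 := sq_nonneg ‖(mk P x (η x)).1 - (mk P x' (η x')).1‖
    rw [abs_le]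
    constructor <;> nlinarith
  -- the derivative
  have der : ∀ x ∈ ball (chi P z) ρ₁, ∀ k, P k = k →
      |⟪k, fderiv ℝ η x k⟫| ≤ C * ‖P (fderiv ℝ η x k)‖ ^ 2 := by
    intro x hx k hk
    have hs : x + (0 : ℝ) • k ∈ ball (chi P z) ρ₁ := by simpa using hx
    have hd := line_hasDerivAt hch (x := x) k hs
    simp only [zero_smul, add_zero, hk, sub_self, zero_sub] at hd
    have hd1 := hd.fst
    have hd2 := hd.snd
    have t1 := (hasDerivAt_iff_tendsto_slope.1 hd1)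
    have t2 := (hasDerivAt_iff_tendsto_slope.1 hd2)
    have t3 := Filter.Tendsto.inner (𝕜 := ℝ) t1 t2
    have t4 := (t1.norm.pow 2).const_mul C
    have hcont : ContinuousAt (fun t : ℝ => x + t • k) 0 := by fun_prop
    have hev0 : ∀ᶠ t in 𝓝 (0 : ℝ), x + t • k ∈ ball (chi P z) ρ₁ :=
      hcont (isOpen_ball.mem_nhds (by simpa using hx))
    have hev : ∀ᶠ t in 𝓝[≠] (0 : ℝ), x + t • k ∈ ball (chi P z) ρ₁ :=
      hev0.filter_mono nhdsWithin_le_nhds
    have t5 := le_of_tendsto_of_tendsto t3.abs t4 (by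
      filter_upwards [hev, self_mem_nhdsWithin] with t ht ht0
      have ht0' : t ≠ 0 := ht0
      have h1 := pair _ ht x hx
      simp only [slope, vsub_eq_sub, sub_zero, zero_smul, add_zero]
      rw [inner_smul_left, inner_smul_right, norm_smul]
      simp only [conj_trivial]
      rw [abs_mul, abs_mul, mul_pow, Real.norm_eq_abs]
      have h2 : 0 ≤ |t⁻¹| * |t⁻¹| := by positivity
      calc |t⁻¹| * (|t⁻¹| * |⟪(mk P (x + t • k) (η (x + t • k))).1 - (mk P x (η x)).1,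
            (mk P (x + t • k) (η (x + t • k))).2 - (mk P x (η x)).2⟫|) =
            |t⁻¹| * |t⁻¹| * |⟪(mk P (x + t • k) (η (x + t • k))).1 - (mk P x (η x)).1,
            (mk P (x + t • k) (η (x + t • k))).2 - (mk P x (η x)).2⟫| := by ring
        _ ≤ |t⁻¹| * |t⁻¹| * (C * ‖(mk P (x + t • k) (η (x + t • k))).1 -
            (mk P x (η x)).1‖ ^ 2) := mul_le_mul_of_nonneg_left h1 h2
        _ = _ := by ring)
    rw [inner_neg_left, inner_add_right, inner_comp hP (hP.1 _), add_zero, abs_neg, norm_neg,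
      real_inner_comm, inner_P hP hk] at t5
    exact t5
  -- `P ∘ η' ∘ P = 0`
  have hzero : ∀ x ∈ ball (chi P z) ρ₁, ∀ k, P k = k → P (fderiv ℝ η x k) = 0 := by
    intro x hx k hk
    set N : E n →L[ℝ] E n := (P.comp (fderiv ℝ η x)).comp P with hNdef
    have hNa : ∀ v, N v = P (fderiv ℝ η x (P v)) := fun v => rfl
    have hNsym : ∀ u v, ⟪N u, v⟫ = ⟪u, N v⟫ := by
      intro u v
      rw [hNa, hNa, hP.2, hch.symm x hx, hP.2]
    have hNn : C * ‖N‖ < 1 := by
      calc C * ‖N‖ ≤ C * (1 / (2 * C)) := by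
            have := (hM x (ball_subset_ball hρ₁ hx)).2
            gcongr
        _ = 1 / 2 := by field_simp
        _ < 1 := by norm_num
    have := zero_of_both N hNsym hC0 hNn (fun v => by
      have h1 := der x hx (P v) (hP.1 v)
      rw [hNa, ← hP.2]
      exact h1) k
    rw [hNa, hk] at this
    exact this
  -- there are no vertical directions
  have hK : ∀ k, P k = k → k = 0 := by
    intro k hk
    by_contra hk0
    have hkn : 0 < ‖k‖ := norm_pos_iff.2 hk0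
    set x0 := chi P z with hx0
    set c : ℝ := ρ₁ / (2 * ‖k‖) with hc
    have hρ := hch.hρ
    have hc0 : 0 < c := by positivity
    have hline : ∀ t ∈ Icc (0 : ℝ) c, x0 + t • k ∈ ball x0 ρ₁ := by
      intro t ht
      rw [mem_ball, dist_eq_norm, add_sub_cancel_left, norm_smul, Real.norm_eq_abs,
        abs_of_nonneg ht.1]
      calc t * ‖k‖ ≤ c * ‖k‖ := by gcongr; exact ht.2
        _ = ρ₁ / 2 := by rw [hc]; field_simp
        _ < ρ₁ := by linarith
    have hconst : P (η (x0 + c • k)) = P (η (x0 + (0 : ℝ) • k)) := by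
      have hder : ∀ t ∈ Icc (0 : ℝ) c, HasDerivAt (fun t : ℝ => P (η (x0 + t • k))) 0 t := by
        intro t ht
        have h1 := P.hasFDerivAt.comp_hasDerivAt t (eta_hasDerivAt hch (x := x0) k (hline t ht))
        rw [hzero _ (hline t ht) k hk] at h1
        exact h1
      refine constant_of_has_deriv_right_zero (f := fun t : ℝ => P (η (x0 + t • k)))
        (a := 0) (b := c) ?_ ?_ c (right_mem_Icc.2 hc0.le)
      · intro t ht
        exact (hder t ht).continuousAt.continuousWithinAt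
      · intro t ht
        exact (hder t ⟨ht.1, ht.2.le⟩).hasDerivWithinAt
    rw [zero_smul, add_zero] at hconst
    have h2 := eq_of_same (P := P) (η := η) (x := x0) (k := c • k) (by rw [map_smul, hk]) hconst
    have hxc := hline c (right_mem_Icc.2 hc0.le)
    have hxx : x0 ∈ ball x0 ρ₁ := mem_ball_self hρ
    have h3 := hinj _ (hch.mem _ hxc) _ (hch.mem _ hxx) (hW0 _ hxc) (hW0 _ hxx) h2
    have h4 := congrArg (chi P) h3
    rw [chi_mk hP, chi_mk hP] at h4
    have h5 : c • k = 0 := by simpa using h4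
    rw [smul_eq_zero] at h5
    rcases h5 with h5 | h5
    · exact hc0.ne' h5
    · exact hk0 h5
  have hP0 : ∀ u, P u = 0 := fun u => hK _ (hP.1 u)
  -- the Lipschitz condition
  refine ⟨max M 0, r₁, le_max_right _ _, hch.hr, ?_⟩
  intro w hw w' hw' hwz hwz'
  obtain ⟨c1, c2⟩ := hch.cover w hw hwz
  obtain ⟨c1', c2'⟩ := hch.cover w' hw' hwz'
  have hchi : ∀ w : E n × E n, chi P w = w.1 := by
    intro w
    unfold chi
    rw [hP0, hP0]
    simp
  have hmk : ∀ x y : E n, mk P x y = (x, y) := by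
    intro x y
    unfold D0H39.NL.mk
    rw [hP0, hP0]
    simp
  rw [hmk] at c2 c2'
  have e2 : w.2 = η (chi P w) := (congrArg Prod.snd c2).symm
  have e2' : w'.2 = η (chi P w') := (congrArg Prod.snd c2').symm
  have hlip := (convex_ball (chi P z) ρ₁).norm_image_sub_le_of_norm_fderiv_le (f := η) (C := M)
    (𝕜 := ℝ) (fun x hx => (hch.smooth.contDiffAt (isOpen_ball.mem_nhds hx)).differentiableAt (by simp))
    (fun x hx => (hM x (ball_subset_ball hρ₁ hx)).1) c1' c1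
  rw [e2, e2']
  refine hlip.trans ?_
  rw [hchi w, hchi w']
  gcongr
  exact le_max_left _ _

end Pool.Agent.D0H98.NL
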