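import Pool.Agent.D0H98.NL.Base

/-! # The sign of a chart at a point with at most one vertical direction -/

set_option autoImplicit false

open Set Topology Metric Function
open Filter hiding mk
open scoped ContDiff RealInnerProductSpace

noncomputable section

namespace Pool.Agent.D0H98.NL

open Pool.Agent.D0H39.NL

/-- no point of the segment has the same value of `⟪e, η⟫` as its translate -/
lemma no_sign_change {n : ℕ} {η : E n → E n} {x0 : E n} {ρ : ℝ} {e : E n}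
    (hd : ∀ x ∈ ball x0 ρ, HasDerivAt (fun t : ℝ => ⟪e, η (x + t • e)⟫) ⟪e, fderiv ℝ η x e⟫ 0)
    (hc : ContinuousOn η (ball x0 ρ))
    (hinj : ∀ x ∈ ball x0 ρ, ∀ t : ℝ, 0 < t → x + t • e ∈ ball x0 ρ →
      ⟪e, η (x + t • e)⟫ ≠ ⟪e, η x⟫) {x1 x2 : E n} (h1 : x1 ∈ ball x0 ρ) (h2 : x2 ∈ ball x0 ρ)
    (p1 : 0 < ⟪e, fderiv ℝ η x1 e⟫) (p2 : ⟪e, fderiv ℝ η x2 e⟫ < 0) : False := by
  have key : ∀ x ∈ ball x0 ρ, ∀ᶠ t in 𝓝[>] (0 : ℝ), x + t • e ∈ ball x0 ρ := by
    intro x hx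
    have hcont : ContinuousAt (fun t : ℝ => x + t • e) 0 := by fun_prop
    have : ∀ᶠ t in 𝓝 (0 : ℝ), x + t • e ∈ ball x0 ρ :=
      hcont (isOpen_ball.mem_nhds (by simpa using hx))
    exact this.filter_mono nhdsWithin_le_nhds
  have e1 : ∀ᶠ t in 𝓝[>] (0 : ℝ), ⟪e, η x1⟫ < ⟪e, η (x1 + t • e)⟫ := by
    have h := (hasDerivAt_iff_tendsto_slope.1 (hd x1 h1))
    have h' : ∀ᶠ t in 𝓝[>] (0 : ℝ), 0 < slope (fun t : ℝ => ⟪e, η (x1 + t • e)⟫) 0 t := by
      have := h.eventually (lt_mem_nhds p1)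
      exact this.filter_mono (nhdsWithin_mono _ (fun t (ht : 0 < t) => ht.ne'))
    filter_upwards [h', self_mem_nhdsWithin] with t ht ht0
    have ht0' : 0 < t := ht0
    rw [slope_def_field, sub_zero] at ht
    have := (div_pos_iff_of_pos_right ht0').1 ht
    simp only [zero_smul, add_zero] at this
    linarith
  have e2 : ∀ᶠ t in 𝓝[>] (0 : ℝ), ⟪e, η (x2 + t • e)⟫ < ⟪e, η x2⟫ := by
    have h := (hasDerivAt_iff_tendsto_slope.1 (hd x2 h2))
    have h' : ∀ᶠ t in 𝓝[>] (0 : ℝ), slope (fun t : ℝ => ⟪e, η (x2 + t • e)⟫) 0 t < 0 := by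
      have := h.eventually (gt_mem_nhds p2)
      exact this.filter_mono (nhdsWithin_mono _ (fun t (ht : 0 < t) => ht.ne'))
    filter_upwards [h', self_mem_nhdsWithin] with t ht ht0
    have ht0' : 0 < t := ht0
    rw [slope_def_field, sub_zero] at ht
    rw [div_lt_iff₀ ht0', zero_mul] at ht
    simp only [zero_smul, add_zero] at ht
    linarith
  obtain ⟨t, ⟨⟨⟨⟨ht1, ht2⟩, ht3⟩, ht4⟩, ht0⟩⟩ :=
    ((((e1.and e2).and (key x1 h1)).and (key x2 h2)).and self_mem_nhdsWithin).exists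
  have ht0' : 0 < t := ht0
  -- the segment
  set X : ℝ → E n := fun s => x1 + s • (x2 - x1) with hX
  have hXm : ∀ s ∈ Icc (0 : ℝ) 1, X s ∈ ball x0 ρ := by
    intro s hs
    exact (convex_ball x0 ρ).add_smul_sub_mem h1 h2 hs
  have hXm' : ∀ s ∈ Icc (0 : ℝ) 1, X s + t • e ∈ ball x0 ρ := by
    intro s hs
    have := (convex_ball x0 ρ).add_smul_sub_mem ht3 ht4 hs
    have e : x1 + t • e + s • (x2 + t • e - (x1 + t • e)) = X s + t • e := by
      simp only [hX]
      rw [add_sub_add_right_eq_sub]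
      abel
    rwa [e] at this
  have cX : Continuous X := by fun_prop
  have cg : ContinuousOn (fun s => ⟪e, η (X s + t • e)⟫ - ⟪e, η (X s)⟫) (Icc 0 1) := by
    refine ContinuousOn.sub ?_ ?_
    · refine ContinuousOn.inner continuousOn_const (hc.comp (by fun_prop) hXm')
    · refine ContinuousOn.inner continuousOn_const (hc.comp (by fun_prop) hXm)
  have iv := intermediate_value_Icc' (zero_le_one) cg
  have hX0 : X 0 = x1 := by simp [hX]
  have hX1 : X 1 = x2 := by simp [hX]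
  have hmem : (0 : ℝ) ∈ Icc (⟪e, η (X 1 + t • e)⟫ - ⟪e, η (X 1)⟫)
      (⟪e, η (X 0 + t • e)⟫ - ⟪e, η (X 0)⟫) := by
    rw [hX0, hX1]
    constructor <;> linarith
  obtain ⟨s, hs, hs0⟩ := iv hmem
  simp only at hs0
  exact hinj (X s) (hXm s hs) t ht0' (hXm' s hs) (by linarith)

theorem t_SIGN1 (hS : S_SHRINK) : S_SIGN1 := by
  intro n Λ z P η ρ r h hsimp hinj
  obtain ⟨r0, hr0, hinj⟩ := hinj
  obtain ⟨δ, M, hδ, -, hM⟩ := small_ball h one_pos
  obtain ⟨ρ₁, r₁, hρ₁, -, hch, hW⟩ := hS n Λ z P η ρ r h δ r0 hδ hr0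
  have hP := hch.proj
  have hbase := hch.base
  have hM' : ∀ x ∈ ball (chi P z) ρ₁, ‖fderiv ℝ η x‖ ≤ M := fun x hx =>
    (hM x (ball_subset_ball hρ₁ hx)).1
  -- vertical vectors
  have hvt : ∀ k, P k = k → IsTangent Λ z (0, k) := by
    intro k hk
    have := tangent_line hch (center_mem hch) k
    rw [hch.vert k hk, hbase, hk] at this
    simpa using this
  by_cases hK : ∀ k, P k = k → k = 0
  · refine ⟨ρ₁, r₁, 1, M, hch, Or.inl rfl, ?_, hM'⟩
    intro x _ k hk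
    rw [hK k hk]
    simp
  push Not at hK
  obtain ⟨e, he, he0⟩ := hK
  have he2 : 0 < ‖e‖ ^ 2 := by
    have := norm_pos_iff.2 he0
    positivity
  have hspan : ∀ k, P k = k → ∃ c : ℝ, k = c • e := by
    intro k hk
    obtain ⟨s, t, hst, heq⟩ := hsimp e k (hvt e he) (hvt k hk)
    have ht : t ≠ 0 := by
      intro ht
      rw [ht, zero_smul, add_zero, smul_eq_zero] at heq
      rcases heq with h0 | h0
      · rcases hst with h1 | h1
        · exact h1 h0
        · exact h1 ht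
      · exact he0 h0
    refine ⟨-(t⁻¹ * s), ?_⟩
    have h1 : t • k = -(s • e) := by
      rw [eq_neg_iff_add_eq_zero, add_comm]; exact heq
    calc k = t⁻¹ • (t • k) := by rw [smul_smul, inv_mul_cancel₀ ht, one_smul]
      _ = _ := by rw [h1, smul_neg, smul_smul, neg_smul]
  have hPu : ∀ u : E n, P u = (⟪e, u⟫ / ‖e‖ ^ 2) • e := by
    intro u
    obtain ⟨c, hc⟩ := hspan (P u) (hP.1 u)
    have h1 : ⟪e, u⟫ = c * ‖e‖ ^ 2 := by
      rw [← inner_P hP he u, hc, inner_smul_right, real_inner_self_eq_norm_sq]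
    rw [h1, mul_div_assoc, div_self he2.ne', mul_one]
    exact hc
  have hinj' : ∀ x ∈ ball (chi P z) ρ₁, ∀ t : ℝ, 0 < t → x + t • e ∈ ball (chi P z) ρ₁ →
      ⟪e, η (x + t • e)⟫ ≠ ⟪e, η x⟫ := by
    intro x hx t ht hxt heq
    have h1 : P (η (x + t • e)) = P (η x) := by rw [hPu, hPu, heq]
    have h2 := eq_of_same (P := P) (η := η) (x := x) (k := t • e) (by rw [map_smul, he]) h1
    have h3 := hinj _ (hch.mem _ hxt) _ (hch.mem _ hx) (hW _ hxt) (hW _ hx) h2
    have h4 := congrArg (chi P) h3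
    rw [chi_mk hP, chi_mk hP] at h4
    have h5 : t • e = 0 := by simpa using h4
    rw [smul_eq_zero] at h5
    rcases h5 with h5 | h5
    · exact ht.ne' h5
    · exact he0 h5
  have hd : ∀ x ∈ ball (chi P z) ρ₁,
      HasDerivAt (fun t : ℝ => ⟪e, η (x + t • e)⟫) ⟪e, fderiv ℝ η x e⟫ 0 := by
    intro x hx
    have h1 := eta_hasDerivAt hch (x := x) e (s := 0) (by simpa using hx)
    have h2 := (hasDerivAt_const (0 : ℝ) e).inner ℝ h1
    simpa using h2
  have hcη : ContinuousOn η (ball (chi P z) ρ₁) := hch.smooth.continuousOn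
  by_cases hs : ∃ x ∈ ball (chi P z) ρ₁, 0 < ⟪e, fderiv ℝ η x e⟫
  · obtain ⟨x1, hx1, p1⟩ := hs
    refine ⟨ρ₁, r₁, -1, M, hch, Or.inr rfl, ?_, hM'⟩
    intro x hx k hk
    obtain ⟨c, rfl⟩ := hspan k hk
    have hx0 : 0 ≤ ⟪e, fderiv ℝ η x e⟫ := by
      by_contra hneg
      rw [not_le] at hneg
      exact no_sign_change hd hcη hinj' hx1 hx p1 hneg
    rw [map_smul, inner_smul_left, inner_smul_right]
    simp only [conj_trivial]
    have : 0 ≤ c * (c * ⟪e, fderiv ℝ η x e⟫) := by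
      rw [← mul_assoc]
      exact mul_nonneg (mul_self_nonneg c) hx0
    linarith
  · push Not at hs
    refine ⟨ρ₁, r₁, 1, M, hch, Or.inl rfl, ?_, hM'⟩
    intro x hx k hk
    obtain ⟨c, rfl⟩ := hspan k hk
    have hx0 := hs x hx
    rw [map_smul, inner_smul_left, inner_smul_right]
    simp only [conj_trivial]
    have : 0 ≤ c * c * (-⟪e, fderiv ℝ η x e⟫) := mul_nonneg (mul_self_nonneg c) (by linarith)
    linarith

end Pool.Agent.D0H98.NL
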