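import Pool.Agent.D0H98.NL.Base

/-! # The sign of a chart at a semidefinite point -/

set_option autoImplicit false

open Set Topology Metric Function
open Filter hiding mk
open scoped ContDiff RealInnerProductSpace

noncomputable section

namespace Pool.Agent.D0H98.NL

open Pool.Agent.D0H39.NL

/-- a symmetric operator with small norm and `-C ‖N k‖² ≤ ⟪k, N k⟫` is nonnegative -/
lemma nonneg_of_semi {n : ℕ} (N : E n →L[ℝ] E n) (hN : ∀ x y, ⟪N x, y⟫ = ⟪x, N y⟫) {C : ℝ}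
    (hC : 0 ≤ C) (hCN : C * ‖N‖ < 1) (h : ∀ k, -C * ‖N k‖ ^ 2 ≤ ⟪k, N k⟫) (k : E n) :
    0 ≤ ⟪k, N k⟫ := by
  have hsym : (N : E n →ₗ[ℝ] E n).IsSymmetric := fun x y => hN x y
  have hn : Module.finrank ℝ (E n) = n := finrank_euclideanSpace_fin
  set b := hsym.eigenvectorBasis hn with hb
  have hb1 : ∀ i, N (b i) = hsym.eigenvalues hn i • b i := by
    intro i
    exact hsym.apply_eigenvectorBasis hn i
  have hlam : ∀ i, 0 ≤ hsym.eigenvalues hn i := by
    intro i
    set l := hsym.eigenvalues hn i with hl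
    have h1 := h (b i)
    have hnb : ‖b i‖ = 1 := b.norm_eq_one i
    rw [hb1, ← hl, inner_smul_right, real_inner_self_eq_norm_sq, norm_smul, hnb] at h1
    simp only [mul_one, one_pow, Real.norm_eq_abs, sq_abs] at h1
    have h2 : |l| ≤ ‖N‖ := by
      have := N.le_opNorm (b i)
      rw [hb1, ← hl, norm_smul, hnb, mul_one, mul_one, Real.norm_eq_abs] at this
      exact this
    by_contra hneg
    rw [not_le] at hneg
    have h3 : C * |l| < 1 := lt_of_le_of_lt (mul_le_mul_of_nonneg_left h2 hC) hCN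
    rw [abs_of_neg hneg] at h3
    nlinarith
  have h2 : ⟪k, N k⟫ = ∑ i, hsym.eigenvalues hn i * ⟪k, b i⟫ ^ 2 := by
    rw [← b.sum_inner_mul_inner k (N k)]
    refine Finset.sum_congr rfl fun i _ => ?_
    rw [← hN, hb1, inner_smul_left, real_inner_comm (b i) k]
    simp only [conj_trivial]
    ring
  rw [h2]
  exact Finset.sum_nonneg fun i _ => mul_nonneg (hlam i) (sq_nonneg _)

theorem t_SIGN2 (hS : S_SHRINK) : S_SIGN2 := by
  intro n Λ z P η ρ r h hsemi
  obtain ⟨ε, hε, C, r0, hr0, hsd⟩ := hsemi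
  set C' : ℝ := |C| + 1 with hC'
  have hC'0 : 0 < C' := by positivity
  obtain ⟨δ, M, hδ, -, hM⟩ := small_ball h (c := 1 / (2 * C')) (by positivity)
  obtain ⟨ρ₁, r₁, hρ₁, -, hch, hW⟩ := hS n Λ z P η ρ r h δ r0 hδ hr0
  have hP := hch.proj
  refine ⟨ρ₁, r₁, ε, M, hch, hε, ?_, fun x hx => (hM x (ball_subset_ball hρ₁ hx)).1⟩
  intro x hx k hk
  have hsmall := (hM x (ball_subset_ball hρ₁ hx)).2
  have hε2 : ε * ε = 1 := by rcases hε with rfl | rfl <;> norm_num
  have hεn : ‖ε‖ = 1 := by rcases hε with rfl | rfl <;> simp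
  set N : E n →L[ℝ] E n := (-ε) • ((P.comp (fderiv ℝ η x)).comp P) with hNdef
  have hNa : ∀ v, N v = (-ε) • P (fderiv ℝ η x (P v)) := fun v => rfl
  have hNsym : ∀ u v, ⟪N u, v⟫ = ⟪u, N v⟫ := by
    intro u v
    rw [hNa, hNa, inner_smul_left, inner_smul_right, hP.2, hch.symm x hx, hP.2]
    rfl
  have hNn : C' * ‖N‖ < 1 := by
    rw [hNdef, norm_smul, norm_neg, hεn, one_mul]
    calc C' * ‖(P.comp (fderiv ℝ η x)).comp P‖ ≤ C' * (1 / (2 * C')) := by gcongr
      _ = 1 / 2 := by field_simp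
      _ < 1 := by norm_num
  have hNk : ∀ v, -C' * ‖N v‖ ^ 2 ≤ ⟪v, N v⟫ := by
    intro v
    have hPv : P (P v) = P v := hP.1 v
    have h1 := hsd _ (hch.mem x hx) (hW x hx) _ (tangent_line hch hx (P v))
    simp only [hPv, sub_self, zero_sub] at h1
    rw [norm_neg, inner_neg_left, inner_add_right] at h1
    have h2 : ⟪P (fderiv ℝ η x (P v)), fderiv ℝ η x (P v) - P (fderiv ℝ η x (P v))⟫ = 0 :=
      inner_comp hP (hP.1 _) _
    rw [h2, add_zero] at h1
    have h3 : ‖N v‖ = ‖P (fderiv ℝ η x (P v))‖ := by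
      rw [hNa, norm_smul, norm_neg, hεn, one_mul]
    have h4 : ⟪v, N v⟫ = ε * -⟪P (fderiv ℝ η x (P v)), P v⟫ := by
      rw [hNa, inner_smul_right, real_inner_comm, ← hP.2, hP.1]
      ring
    rw [h3, h4]
    refine le_trans ?_ h1
    have h5 : C ≤ C' := by
      have := le_abs_self C
      rw [hC']; linarith
    nlinarith [sq_nonneg ‖P (fderiv ℝ η x (P v))‖]
  have hfin := nonneg_of_semi N hNsym hC'0.le hNn hNk k
  rw [hNa, hk, inner_smul_right, inner_P hP hk] at hfin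
  linarith

end Pool.Agent.D0H98.NL
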