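import Pool.Agent.D0H39.NL.Bas
import Pool.Agent.D0H39.NL.Stm2

/-! # Tangent vectors in a chart, vertical tangencies -/

set_option autoImplicit false

open Set Topology Metric Function
open Filter hiding mk
open scoped ContDiff RealInnerProductSpace

noncomputable section

namespace Pool.Agent.D0H98.NL

open Pool.Agent.D0H39.NL

theorem t_TAN : S_TAN := by
  intro n Λ z P η ρ r h w hw hwz a
  obtain ⟨hx, hW⟩ := h.cover w hw hwz
  constructor
  · rintro ⟨c, hc, hcΛ, hc0, hca⟩
    have hcd : HasDerivAt c a 0 := by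
      rw [← hca]
      exact (hc.differentiableAt (by simp)).hasDerivAt
    have hnear : ∀ᶠ t in 𝓝 (0 : ℝ), ‖c t - z‖ < r := by
      have h1 : ContinuousAt (fun t => ‖c t - z‖) 0 :=
        (hcd.continuousAt.sub continuousAt_const).norm
      refine h1.eventually_lt continuousAt_const ?_
      rw [hc0]
      exact hwz
    have heq : c =ᶠ[𝓝 0] fun t => mk P (chi P (c t)) (η (chi P (c t))) := by
      filter_upwards [hcΛ, hnear] with t h1 h2
      exact (h.cover _ h1 h2).2.symm
    have h1 : HasDerivAt (fun t => chi P (c t)) (chi P a) 0 :=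
      HasFDerivAt.comp_hasDerivAt (l := chiL P) (f := c) 0 (chiL P).hasFDerivAt hcd
    have hx' : chi P (c 0) ∈ ball (chi P z) ρ := by rw [hc0]; exact hx
    have h2 := HasFDerivAt.comp_hasDerivAt (l := fun x => mk P x (η x))
      (f := fun t => chi P (c t)) 0 (W_deriv h hx') h1
    have h3 : HasDerivAt c (mk P (chi P a) (fderiv ℝ η (chi P w) (chi P a))) 0 := by
      have h4 := h2.congr_of_eventuallyEq heq
      rw [hc0] at h4
      exact h4
    exact hcd.unique h3
  · intro ha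
    have hs : chi P w + (0 : ℝ) • chi P a ∈ ball (chi P z) ρ := by simpa using hx
    obtain ⟨l1, l2, l3⟩ := W_line h (chi P w) (chi P a) 0 hs
    refine ⟨_, l1, l3, ?_, ?_⟩
    · simpa using hW
    · rw [l2.deriv, zero_smul, add_zero]
      exact ha.symm

/-- `mk P u y` is linear -/
lemma mk_smul {n : ℕ} (P : E n →L[ℝ] E n) (c : ℝ) (x y : E n) :
    mk P (c • x) (c • y) = c • mk P x y := by
  have := (mkL P).map_smul c (x, y)
  simpa [mkL_apply] using this

theorem t_ZCL (hC : S_CHART) : S_ZCL := by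
  intro n Λ hL
  rw [← isSeqClosed_iff_isClosed]
  intro zs z hzs hlim
  have hz : z ∈ Λ := hL.closed.mem_of_tendsto hlim (Eventually.of_forall fun j => (hzs j).1)
  refine ⟨hz, ?_⟩
  obtain ⟨P, η, ρ, r, h⟩ := hC n Λ hL z hz
  have hnear : ∀ᶠ j in atTop, ‖zs j - z‖ < r := by
    have h1 : Tendsto (fun j => ‖zs j - z‖) atTop (𝓝 0) := by
      have := (hlim.sub_const z).norm
      simpa using this
    exact h1.eventually (gt_mem_nhds h.hr)
  obtain ⟨N, hN⟩ := eventually_atTop.1 hnear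
  have key : ∀ j, ∃ u : E n, ‖u‖ = 1 ∧
      (mk P u (fderiv ℝ η (chi P (zs (j + N))) u)).1 = 0 := by
    intro j
    obtain ⟨a, ha0, hta⟩ := (hzs (j + N)).2
    have h1 := (t_TAN n Λ z P η ρ r h _ (hzs (j + N)).1 (hN (j + N) (by omega)) (0, a)).1 hta
    set v := chi P ((0 : E n), a) with hv
    have hv0 : v ≠ 0 := by
      intro hv0
      rw [hv0, map_zero] at h1
      have h2 : mk P (0 : E n) 0 = 0 := by
        have := (mkL P).map_zero
        exact this
      rw [h2] at h1
      exact ha0 (congrArg Prod.snd h1)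
    have hvn : ‖v‖ ≠ 0 := norm_ne_zero_iff.2 hv0
    refine ⟨‖v‖⁻¹ • v, ?_, ?_⟩
    · rw [norm_smul, norm_inv, norm_norm, inv_mul_cancel₀ hvn]
    · rw [map_smul, mk_smul, ← h1]
      simp
  choose u hu1 hu2 using key
  have hus : ∀ j, u j ∈ sphere (0 : E n) 1 := fun j => by
    rw [mem_sphere_zero_iff_norm]
    exact hu1 j
  obtain ⟨u0, hu0, φ, hφ, hlimu⟩ := (isCompact_sphere (0 : E n) 1).tendsto_subseq hus
  have hx0 : chi P z ∈ ball (chi P z) ρ := mem_ball_self h.hρ
  have hfc : ContinuousAt (fderiv ℝ η) (chi P z) :=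
    (h.smooth.continuousOn_fderiv_of_isOpen isOpen_ball (by simp)).continuousAt
      (isOpen_ball.mem_nhds hx0)
  have hzl : Tendsto (fun j => zs (φ j + N)) atTop (𝓝 z) :=
    hlim.comp ((tendsto_add_atTop_nat N).comp hφ.tendsto_atTop)
  have hxl : Tendsto (fun j => chi P (zs (φ j + N))) atTop (𝓝 (chi P z)) :=
    ((continuous_chi P).tendsto z).comp hzl
  have hdl : Tendsto (fun j => fderiv ℝ η (chi P (zs (φ j + N)))) atTop
      (𝓝 (fderiv ℝ η (chi P z))) := hfc.tendsto.comp hxl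
  have hul : Tendsto (fun j => u (φ j)) atTop (𝓝 u0) := hlimu
  have hel : Tendsto (fun j => fderiv ℝ η (chi P (zs (φ j + N))) (u (φ j))) atTop
      (𝓝 (fderiv ℝ η (chi P z) u0)) :=
    ((isBoundedBilinearMap_apply (𝕜 := ℝ) (E := E n) (F := E n)).continuous.tendsto
      (fderiv ℝ η (chi P z), u0)).comp (hdl.prodMk_nhds hul)
  have hml : Tendsto (fun j => mkL P (u (φ j), fderiv ℝ η (chi P (zs (φ j + N))) (u (φ j)))) atTop
      (𝓝 (mkL P (u0, fderiv ℝ η (chi P z) u0))) :=
    ((mkL P).continuous.tendsto _).comp (hul.prodMk_nhds hel)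
  have hml1 : Tendsto (fun j => (mkL P (u (φ j), fderiv ℝ η (chi P (zs (φ j + N))) (u (φ j)))).1) atTop
      (𝓝 (mkL P (u0, fderiv ℝ η (chi P z) u0)).1) := (continuous_fst.tendsto _).comp hml
  have hz1 : (mk P u0 (fderiv ℝ η (chi P z) u0)).1 = 0 := by
    refine tendsto_nhds_unique hml1 ?_
    refine tendsto_const_nhds.congr fun j => ?_
    exact (hu2 (φ j)).symm
  set a := (mk P u0 (fderiv ℝ η (chi P z) u0)).2 with ha
  have hpair : mk P u0 (fderiv ℝ η (chi P z) u0) = (0, a) := Prod.ext hz1 rfl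
  have hchi : chi P ((0 : E n), a) = u0 := by
    rw [← hpair, Pool.Agent.D0H39.NL.chi_mk h.proj]
  refine ⟨a, ?_, ?_⟩
  · intro ha0
    rw [ha0] at hchi
    have h2 : chi P ((0 : E n), (0 : E n)) = 0 := (chiL P).map_zero
    rw [h2] at hchi
    rw [mem_sphere_zero_iff_norm, ← hchi, norm_zero] at hu0
    exact zero_ne_one hu0
  · rw [t_TAN n Λ z P η ρ r h z hz (by rw [sub_self, norm_zero]; exact h.hr) (0, a), hchi]
    exact hpair.symm

theorem t_NV (hC : S_CHART) : S_NV := by
  intro n Λ hL z hz hnv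
  obtain ⟨P, η, ρ, r, h⟩ := hC n Λ hL z hz
  have hP := h.proj
  have hK : ∀ k, P k = k → k = 0 := by
    intro k hk
    by_contra hk0
    apply hnv
    refine ⟨k, hk0, ?_⟩
    rw [t_TAN n Λ z P η ρ r h z hz (by rw [sub_self, norm_zero]; exact h.hr) (0, k)]
    have h1 : chi P ((0 : E n), k) = k := by
      unfold chi
      simp [hk]
    rw [h1, h.vert k hk]
    unfold D0H39.NL.mk
    simp [hk]
  have hP0 : ∀ u, P u = 0 := fun u => hK _ (hP.1 u)
  have hchi : ∀ w : E n × E n, chi P w = w.1 := by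
    intro w
    unfold chi
    rw [hP0, hP0]
    simp
  have hmk : ∀ x y : E n, mk P x y = (x, y) := by
    intro x y
    unfold D0H39.NL.mk
    rw [hP0, hP0]
    simp
  refine ⟨⟨r, h.hr, ?_⟩, ?_⟩
  · intro w hw w' hw' hwz hwz' he
    have e1 := (h.cover w hw hwz).2
    have e2 := (h.cover w' hw' hwz').2
    rw [← e1, ← e2, hchi, hchi, he]
  · have hx0 : chi P z ∈ ball (chi P z) ρ := mem_ball_self h.hρ
    have hfc : ContinuousAt (fderiv ℝ η) (chi P z) :=
      (h.smooth.continuousOn_fderiv_of_isOpen isOpen_ball (by simp)).continuousAt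
        (isOpen_ball.mem_nhds hx0)
    have hcomp : ContinuousAt (fun w : E n × E n => ‖fderiv ℝ η (chi P w)‖) z :=
      (ContinuousAt.comp (g := fderiv ℝ η) (f := fun w => chi P w) hfc
        (continuous_chi P).continuousAt).norm
    have hev : ∀ᶠ w in 𝓝 z, ‖fderiv ℝ η (chi P w)‖ < ‖fderiv ℝ η (chi P z)‖ + 1 :=
      hcomp.eventually_lt continuousAt_const (by linarith)
    obtain ⟨δ, hδ, hb⟩ := Metric.eventually_nhds_iff_ball.1 hev
    refine ⟨‖fderiv ℝ η (chi P z)‖ + 1, min δ r, by positivity, lt_min hδ h.hr, ?_⟩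
    intro w hw hwz a ha
    have hwr : ‖w - z‖ < r := hwz.trans_le (min_le_right _ _)
    have hwδ : w ∈ ball z δ := by
      rw [mem_ball, dist_eq_norm]
      exact hwz.trans_le (min_le_left _ _)
    have h1 := (t_TAN n Λ z P η ρ r h w hw hwr a).1 ha
    rw [hmk, hchi a] at h1
    have h2 : a.2 = fderiv ℝ η (chi P w) a.1 := congrArg Prod.snd h1
    rw [h2]
    refine ((fderiv ℝ η (chi P w)).le_opNorm _).trans ?_
    exact mul_le_mul_of_nonneg_right (hb w hwδ).le (norm_nonneg _)

end Pool.Agent.D0H98.NL
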