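import Pool.Agent.D0H39.NL.Stm

/-! # Charts: basic facts -/

set_option autoImplicit false

open Set Topology Metric Function
open Filter hiding mk
open scoped ContDiff RealInnerProductSpace

noncomputable section

namespace Pool.Agent.D0H98.NL

open Pool.Agent.D0H39.NL

variable {n : ℕ} {Λ : Set (E n × E n)} {z : E n × E n} {P : E n →L[ℝ] E n} {η : E n → E n}
  {ρ r : ℝ}

lemma chi_mk (hP : IsProj P) (x y : E n) : chi P (mk P x y) = x := by
  unfold chi mk
  simp only [map_sub, map_add, hP.1]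
  abel

lemma inner_P (hP : IsProj P) {k : E n} (hk : P k = k) (u : E n) : ⟪k, P u⟫ = ⟪k, u⟫ := by
  rw [← hP.2, hk]

lemma inner_comp (hP : IsProj P) {k : E n} (hk : P k = k) (u : E n) : ⟪k, u - P u⟫ = 0 := by
  rw [inner_sub_right, inner_P hP hk, sub_self]

/-- the curve along a line in the chart -/
lemma line_contDiffAt (h : IsChart Λ z P η ρ r) {x : E n} (v : E n)
    {s : ℝ} (hs : x + s • v ∈ ball (chi P z) ρ) :
    ContDiffAt ℝ ∞ (fun t : ℝ => mk P (x + t • v) (η (x + t • v))) s := by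
  have h1 : ContDiffAt ℝ ∞ η (x + s • v) := h.smooth.contDiffAt (isOpen_ball.mem_nhds hs)
  have h2 : ContDiffAt ℝ ∞ (fun t : ℝ => x + t • v) s := by fun_prop
  have h3 : ContDiffAt ℝ ∞ (fun t : ℝ => η (x + t • v)) s := ContDiffAt.comp s h1 h2
  unfold mk
  exact ((h2.sub (P.contDiff.contDiffAt.comp s h2)).sub (P.contDiff.contDiffAt.comp s h3)).prodMk
    ((P.contDiff.contDiffAt.comp s h2).add (h3.sub (P.contDiff.contDiffAt.comp s h3)))

lemma eta_hasDerivAt (h : IsChart Λ z P η ρ r) {x : E n} (v : E n)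
    {s : ℝ} (hs : x + s • v ∈ ball (chi P z) ρ) :
    HasDerivAt (fun t : ℝ => η (x + t • v)) (fderiv ℝ η (x + s • v) v) s := by
  have h1 : HasFDerivAt η (fderiv ℝ η (x + s • v)) (x + s • v) :=
    ((h.smooth.contDiffAt (isOpen_ball.mem_nhds hs)).differentiableAt (by simp)).hasFDerivAt
  have h2 : HasDerivAt (fun t : ℝ => x + t • v) v s := by
    have := ((hasDerivAt_id s).smul_const v).const_add x
    simpa using this
  exact h1.comp_hasDerivAt s h2

lemma line_hasDerivAt (h : IsChart Λ z P η ρ r) {x : E n} (v : E n)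
    {s : ℝ} (hs : x + s • v ∈ ball (chi P z) ρ) :
    HasDerivAt (fun t : ℝ => mk P (x + t • v) (η (x + t • v)))
      (v - P v - P (fderiv ℝ η (x + s • v) v),
        P v + (fderiv ℝ η (x + s • v) v - P (fderiv ℝ η (x + s • v) v))) s := by
  have h2 : HasDerivAt (fun t : ℝ => x + t • v) v s := by
    have := ((hasDerivAt_id s).smul_const v).const_add x
    simpa using this
  have h3 := eta_hasDerivAt h v hs
  have h4 : HasDerivAt (fun t : ℝ => P (x + t • v)) (P v) s := P.hasFDerivAt.comp_hasDerivAt s h2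
  have h5 := P.hasFDerivAt.comp_hasDerivAt s h3
  unfold mk
  exact ((h2.sub h4).sub h5).prodMk (h4.add (h3.sub h5))

lemma line_mem (h : IsChart Λ z P η ρ r) {x : E n} (v : E n)
    {s : ℝ} (hs : x + s • v ∈ ball (chi P z) ρ) :
    ∀ᶠ t in 𝓝 s, mk P (x + t • v) (η (x + t • v)) ∈ Λ := by
  have h2 : ContinuousAt (fun t : ℝ => x + t • v) s := by fun_prop
  filter_upwards [h2 (isOpen_ball.mem_nhds hs)] with t ht
  exact h.mem _ ht

lemma tangent_line (h : IsChart Λ z P η ρ r) {x : E n} (hx : x ∈ ball (chi P z) ρ) (v : E n) :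
    IsTangent Λ (mk P x (η x)) (v - P v - P (fderiv ℝ η x v),
      P v + (fderiv ℝ η x v - P (fderiv ℝ η x v))) := by
  have hs : x + (0 : ℝ) • v ∈ ball (chi P z) ρ := by simpa using hx
  refine ⟨fun t : ℝ => mk P (x + t • v) (η (x + t • v)), line_contDiffAt h v hs,
    line_mem h v hs, by simp, ?_⟩
  have := (line_hasDerivAt h v hs).deriv
  simpa using this

lemma fderiv_cont (h : IsChart Λ z P η ρ r) : ContinuousOn (fderiv ℝ η) (ball (chi P z) ρ) :=
  h.smooth.continuousOn_fderiv_of_isOpen isOpen_ball (by simp)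

lemma center_mem (h : IsChart Λ z P η ρ r) : chi P z ∈ ball (chi P z) ρ := mem_ball_self h.hρ

/-- a small ball with a bound for the derivative and a small `P ∘ η' ∘ P` -/
lemma small_ball (h : IsChart Λ z P η ρ r) {c : ℝ} (hc : 0 < c) :
    ∃ δ M : ℝ, 0 < δ ∧ δ ≤ ρ ∧ ∀ x ∈ ball (chi P z) δ, ‖fderiv ℝ η x‖ ≤ M ∧
      ‖(P.comp (fderiv ℝ η x)).comp P‖ ≤ c := by
  have h0 : ContinuousAt (fderiv ℝ η) (chi P z) :=
    (fderiv_cont h).continuousAt (isOpen_ball.mem_nhds (center_mem h))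
  have h1 : ContinuousAt (fun x => ‖fderiv ℝ η x‖) (chi P z) := h0.norm
  have h2 : ContinuousAt (fun x => ‖(P.comp (fderiv ℝ η x)).comp P‖) (chi P z) := by
    have e1 : ContinuousAt (fun x => (P.comp (fderiv ℝ η x)).comp P) (chi P z) :=
      (continuousAt_const.clm_comp h0).clm_comp continuousAt_const
    exact e1.norm
  have e0 : (P.comp (fderiv ℝ η (chi P z))).comp P = 0 := by
    ext1 v
    simp only [ContinuousLinearMap.comp_apply, zero_apply]
    rw [h.vert (P v) (h.proj.1 v), map_zero]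
  have h3 : ∀ᶠ x in 𝓝 (chi P z), ‖fderiv ℝ η x‖ < ‖fderiv ℝ η (chi P z)‖ + 1 :=
    h1.eventually_lt continuousAt_const (by linarith)
  have h4 : ∀ᶠ x in 𝓝 (chi P z), ‖(P.comp (fderiv ℝ η x)).comp P‖ < c := by
    refine h2.eventually_lt continuousAt_const ?_
    rw [e0, norm_zero]
    exact hc
  obtain ⟨δ, hδ, hb⟩ := Metric.eventually_nhds_iff_ball.1 (h3.and h4)
  refine ⟨min δ ρ, ‖fderiv ℝ η (chi P z)‖ + 1, lt_min hδ h.hρ, min_le_right _ _, fun x hx => ?_⟩
  have := hb x (ball_subset_ball (min_le_left _ _) hx)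
  exact ⟨this.1.le, this.2.le⟩

/-- the points of the chart have the same position and are in the neighbourhood of injectivity -/
lemma eq_of_same {x k : E n} (hk : P k = k)
    (he : P (η (x + k)) = P (η x)) :
    (mk P (x + k) (η (x + k))).1 = (mk P x (η x)).1 := by
  unfold mk
  simp only [map_add, hk, he]
  abel

end Pool.Agent.D0H98.NL
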