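import Pool.Agent.D0H39.NL.Stm2

/-! # Images under symplectic twists -/

set_option autoImplicit false

open Set Topology Metric Function
open Filter hiding mk
open scoped ContDiff RealInnerProductSpace

noncomputable section

namespace Pool.Agent.D0H98.NL

open Pool.Agent.D0H39.NL

variable {n : ℕ}

lemma om_nd {a : E n × E n} (h : ∀ b, om a b = 0) : a = 0 := by
  have h1 := h (a.2, -a.1)
  simp only [om, inner_neg_left, sub_neg_eq_add] at h1
  have h2 : 0 ≤ ⟪a.2, a.2⟫ := real_inner_self_nonneg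
  have h3 : 0 ≤ ⟪a.1, a.1⟫ := real_inner_self_nonneg
  refine Prod.ext ?_ ?_
  · exact (inner_self_eq_zero (𝕜 := ℝ)).1 (le_antisymm (by linarith) h3)
  · exact (inner_self_eq_zero (𝕜 := ℝ)).1 (le_antisymm (by linarith) h2)

lemma symm_per {K : E n × E n → ℝ} {k₁ k₂ : E n × E n → E n} {t : ℝ}
    {Φ : E n × E n ≃ E n × E n} (hT : IsTwist K k₁ k₂ t Φ) (y : E n × E n) (k : Fin n → ℤ) :
    Φ.symm (y.1 + latt k, y.2) = ((Φ.symm y).1 + latt k, (Φ.symm y).2) := by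
  rw [Equiv.symm_apply_eq, hT.per]
  simp

/-- the generating relations at `y = Φ z` -/
lemma gen_rel {K : E n × E n → ℝ} {k₁ k₂ : E n × E n → E n} {t : ℝ}
    {Φ : E n × E n ≃ E n × E n} (hT : IsTwist K k₁ k₂ t Φ) (y : E n × E n) :
    (Φ.symm y).1 = y.1 - t • k₂ (y.1, (Φ.symm y).2) ∧
      y.2 = (Φ.symm y).2 - t • k₁ (y.1, (Φ.symm y).2) := by
  obtain ⟨w, h1, h2, h3⟩ := hT.gen (Φ.symm y)
  rw [Equiv.apply_symm_apply] at h3
  have e1 := congrArg Prod.fst h3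
  have e2 := congrArg Prod.snd h3
  simp only at e1 e2
  have ew : (y.1, (Φ.symm y).2) = w := Prod.ext e1 h1.symm
  rw [ew]
  constructor
  · rw [e1, h2]; abel
  · rw [e2, h1]

theorem t_PRIM : S_PRIM := by
  intro n Λ K k₁ k₂ M t Φ f hG hT hf
  refine ⟨fun y => f (Φ.symm y) + t * (⟪(Φ.symm y).2, k₂ (y.1, (Φ.symm y).2)⟫ -
    K (y.1, (Φ.symm y).2)), ?_, ?_⟩
  · rintro _ ⟨z, hz, rfl⟩ k
    simp only
    rw [symm_per hT, Equiv.symm_apply_apply]
    have h1 := hf.1 z hz k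
    have h2 := hG.p2 ((Φ z).1, z.2) k
    have h3 := hG.perK ((Φ z).1, z.2) k
    simp only at h2 h3
    rw [h1, h2, h3]
  · intro c s hc hcΛ
    set ζ : ℝ → E n × E n := fun τ => Φ.symm (c τ) with hζ
    have hζs : ContDiffAt ℝ ∞ ζ s := hT.c2.contDiffAt.comp s hc
    have hζΛ : ∀ᶠ τ in 𝓝 s, ζ τ ∈ Λ := by
      filter_upwards [hcΛ] with τ hτ
      obtain ⟨z, hz, hzc⟩ := hτ
      simp only [hζ]
      rw [← hzc, Equiv.symm_apply_apply]
      exact hz
    have hfd := hf.2 ζ s hζs hζΛ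
    have hcd : HasDerivAt c (deriv c s) s := (hc.differentiableAt (by simp)).hasDerivAt
    have hζd : HasDerivAt ζ (deriv ζ s) s := (hζs.differentiableAt (by simp)).hasDerivAt
    set c' := deriv c s with hc'
    set ζ' := deriv ζ s with hζ'
    have hc1 : HasDerivAt (fun τ => (c τ).1) c'.1 s := hcd.fst
    have hz1 : HasDerivAt (fun τ => (ζ τ).1) ζ'.1 s := hζd.fst
    have hz2 : HasDerivAt (fun τ => (ζ τ).2) ζ'.2 s := hζd.snd
    have hw : HasDerivAt (fun τ => ((c τ).1, (ζ τ).2)) (c'.1, ζ'.2) s := hc1.prodMk hz2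
    set w := ((c s).1, (ζ s).2) with hwdef
    have hk2 : HasDerivAt (fun τ => k₂ ((c τ).1, (ζ τ).2)) (fderiv ℝ k₂ w (c'.1, ζ'.2)) s :=
      HasFDerivAt.comp_hasDerivAt (l := k₂) s
        (hG.s2.differentiable (by simp)).differentiableAt.hasFDerivAt hw
    have hKd : HasDerivAt (fun τ => K ((c τ).1, (ζ τ).2)) (fderiv ℝ K w (c'.1, ζ'.2)) s :=
      HasFDerivAt.comp_hasDerivAt (l := K) s
        (hG.hK.differentiable (by simp)).differentiableAt.hasFDerivAt hw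
    rw [hG.grad] at hKd
    -- the relation of the velocities
    have hrel : ζ'.1 = c'.1 - t • fderiv ℝ k₂ w (c'.1, ζ'.2) := by
      have h1 : HasDerivAt (fun τ => (c τ).1 - t • k₂ ((c τ).1, (ζ τ).2))
          (c'.1 - t • fderiv ℝ k₂ w (c'.1, ζ'.2)) s := hc1.sub (hk2.const_smul t)
      have h2 : (fun τ => (ζ τ).1) = fun τ => (c τ).1 - t • k₂ ((c τ).1, (ζ τ).2) := by
        funext τ
        exact (gen_rel hT (c τ)).1
      rw [h2] at hz1
      exact hz1.unique h1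
    have hin : HasDerivAt (fun τ => ⟪(ζ τ).2, k₂ ((c τ).1, (ζ τ).2)⟫)
        (⟪(ζ s).2, fderiv ℝ k₂ w (c'.1, ζ'.2)⟫ + ⟪ζ'.2, k₂ w⟫) s := hz2.inner ℝ hk2
    have htot := hfd.add ((hin.sub hKd).const_mul t)
    refine htot.congr_deriv ?_
    have hc2 : (c s).2 = (ζ s).2 - t • k₁ w := (gen_rel hT (c s)).2
    rw [hc2, hrel]
    simp only [inner_sub_left, inner_sub_right, inner_smul_left, inner_smul_right,
      RCLike.conj_to_real]
    rw [real_inner_comm ζ'.2 (k₂ w)]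
    ring

theorem t_PUSH : S_PUSH := by
  intro n Λ K k₁ k₂ M t Φ hΛ hG hT
  have h1 := hT.c1
  have h2 := hT.c2
  let H : E n × E n ≃ₜ E n × E n := ⟨Φ, h1.continuous, h2.continuous⟩
  refine ⟨⟨H.isClosedMap _ hΛ.closed, hΛ.nonempty.image _, ?_, ?_, ?_⟩, ?_⟩
  · rintro _ ⟨z, hz, rfl⟩ k
    exact ⟨_, hΛ.per z hz k, hT.per z k⟩
  · obtain ⟨R, hR⟩ := hΛ.bdd
    refine ⟨R + |t| * M, ?_⟩
    rintro _ ⟨z, hz, rfl⟩
    obtain ⟨w, g1, g2, g3⟩ := hT.gen z
    rw [g3]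
    simp only
    refine (norm_sub_le _ _).trans ?_
    rw [g1, norm_smul, Real.norm_eq_abs]
    exact add_le_add (hR z hz) (mul_le_mul_of_nonneg_left (hG.b1 w) (abs_nonneg t))
  · rintro _ ⟨z, hz, rfl⟩
    obtain ⟨F, f2, ⟨f1, f3, f5⟩, f6, f4⟩ := hΛ.par z hz
    have hd : ∀ s v, fderiv ℝ (fun s => Φ (F s)) s v = fderiv ℝ Φ (F s) (fderiv ℝ F s v) := by
      intro s v
      have g1 : HasFDerivAt Φ (fderiv ℝ Φ (F s)) (F s) :=
        (h1.differentiable (by simp)).differentiableAt.hasFDerivAt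
      have g2 : HasFDerivAt F (fderiv ℝ F s) s :=
        (f1.differentiable (by simp)).differentiableAt.hasFDerivAt
      have g3 : fderiv ℝ (fun s => Φ (F s)) s = _ := (g1.comp s g2).fderiv
      rw [g3]
      rfl
    refine ⟨fun s => Φ (F s), congrArg Φ f2, ⟨h1.comp f1, Φ.injective.comp f3,
      fun s v hv => ?_⟩, fun s v w => ?_, fun V hV => ?_⟩
    · rw [hd] at hv
      apply f5 s v
      apply om_nd
      intro b
      rw [← hT.sym (F s), hv]
      simp [om]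
    · rw [hd, hd, hT.sym]
      exact f6 s v w
    · obtain ⟨U, hU, hU'⟩ := f4 V hV
      refine ⟨Φ '' U, H.isOpenMap _ hU, ?_⟩
      rw [← image_image (g := Φ) (f := F), hU', image_inter Φ.injective]
  · rintro y b ⟨c, hc, hcΛ, hc0, hcb⟩
    have hcd : HasDerivAt c b 0 := by
      rw [← hcb]
      exact (hc.differentiableAt (by simp)).hasDerivAt
    have hζs : ContDiffAt ℝ ∞ (fun τ => Φ.symm (c τ)) 0 := h2.contDiffAt.comp 0 hc
    have hζΛ : ∀ᶠ τ in 𝓝 (0 : ℝ), Φ.symm (c τ) ∈ Λ := by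
      filter_upwards [hcΛ] with τ hτ
      obtain ⟨z, hz, hzc⟩ := hτ
      rw [← hzc, Equiv.symm_apply_apply]
      exact hz
    have hζd : HasDerivAt (fun τ => Φ.symm (c τ)) (deriv (fun τ => Φ.symm (c τ)) 0) 0 :=
      (hζs.differentiableAt (by simp)).hasDerivAt
    refine ⟨Φ.symm y, ?_, deriv (fun τ => Φ.symm (c τ)) 0, Φ.apply_symm_apply y,
      ⟨fun τ => Φ.symm (c τ), hζs, hζΛ, congrArg Φ.symm hc0, rfl⟩, ?_⟩
    · have := hζΛ.self_of_nhds
      rwa [hc0] at this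
    · have g1 : HasFDerivAt Φ (fderiv ℝ Φ (Φ.symm (c 0))) (Φ.symm (c 0)) :=
        (h1.differentiable (by simp)).differentiableAt.hasFDerivAt
      have g2 := HasFDerivAt.comp_hasDerivAt (l := Φ) (f := fun τ => Φ.symm (c τ)) 0 g1 hζd
      have g3 : (fun τ => Φ (Φ.symm (c τ))) = c := by
        funext τ
        exact Φ.apply_symm_apply _
      have g4 : HasDerivAt c (fderiv ℝ Φ (Φ.symm (c 0)) (deriv (fun τ => Φ.symm (c τ)) 0)) 0 :=
        g2.congr_of_eventuallyEq (Eventually.of_forall fun τ => (congrFun g3 τ).symm)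
      rw [← hc0]
      exact g4.unique hcd

end Pool.Agent.D0H98.NL
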