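import Pool.Agent.D0H39.NL.Stm2
import Pool.Agent.Y522.ML.Gen

/-! # The twist -/

set_option autoImplicit false

open Set Topology Metric Function
open Filter hiding mk
open scoped ContDiff RealInnerProductSpace

noncomputable section

namespace Pool.Agent.D0H98.NL

open Pool.Agent.D0H39.NL

/-- uniform continuity of periodic continuous functions near a set bounded in `p` -/
lemma unif {n : ℕ} {W : Type} [NormedAddCommGroup W] (f : E n × E n → W) (hf : Continuous f)
    (hp : ∀ w (k : Fin n → ℤ), f (w.1 + latt k, w.2) = f w) (R : ℝ) {ε : ℝ} (hε : 0 < ε) :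
    ∃ δ : ℝ, 0 < δ ∧ ∀ z w : E n × E n, ‖z.2‖ ≤ R → ‖w - z‖ < δ → ‖f w - f z‖ ≤ ε := by
  have hc : IsCompact (((fun x : Fin n → ℝ => (WithLp.toLp 2 x : E n)) ''
      (Set.pi univ fun _ => Icc (0 : ℝ) 1)) ×ˢ closedBall (0 : E n) R) := by
    refine IsCompact.prod ?_ (isCompact_closedBall _ _)
    refine (isCompact_univ_pi fun _ => isCompact_Icc).image ?_
    exact PiLp.continuous_toLp 2 _
  have h1 := hc.uniformContinuousAt_of_continuousAt f (fun a _ => hf.continuousAt)
    (Metric.dist_mem_uniformity hε)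
  obtain ⟨δ, hδ, h2⟩ := Metric.mem_uniformity_dist.1 h1
  refine ⟨δ, hδ, ?_⟩
  intro z w hz hw
  set k : Fin n → ℤ := fun i => -⌊z.1 i⌋ with hk
  have hmem : (z.1 + latt k, z.2) ∈ ((fun x : Fin n → ℝ => (WithLp.toLp 2 x : E n)) ''
      (Set.pi univ fun _ => Icc (0 : ℝ) 1)) ×ˢ closedBall (0 : E n) R := by
    refine ⟨⟨fun i => Int.fract (z.1 i), ?_, ?_⟩, ?_⟩
    · intro i _
      exact ⟨Int.fract_nonneg _, (Int.fract_lt_one _).le⟩
    · ext i
      show Int.fract (z.1 i) = z.1 i + ((-⌊z.1 i⌋ : ℤ) : ℝ)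
      rw [Int.cast_neg, ← sub_eq_add_neg, Int.self_sub_floor]
    · rw [mem_closedBall_zero_iff]
      exact hz
  have hd : dist (z.1 + latt k, z.2) (w.1 + latt k, w.2) < δ := by
    rw [dist_comm, dist_eq_norm]
    have : ((w.1 + latt k, w.2) - (z.1 + latt k, z.2) : E n × E n) = w - z := by
      refine Prod.ext ?_ ?_
      · simp
      · simp
    rw [this]
    exact hw
  have h3 := h2 hd hmem
  rw [mem_ofPred_eq] at h3
  rw [hp, hp] at h3
  rw [← dist_eq_norm, dist_comm]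
  exact h3.le

theorem t_TW : S_TW := by
  intro n Λ K k₁ k₂ M C hΛ hG hC0 hin
  obtain ⟨R, hR⟩ := hΛ.bdd
  set C' : ℝ := C + 1 with hC'
  have hC'0 : 0 < C' := by positivity
  have hM := hG.hM
  -- the derivative of `k₂`
  have hDc : Continuous (fderiv ℝ k₂) := hG.s2.continuous_fderiv (by simp)
  have htr : ∀ (w : E n × E n) (k : Fin n → ℤ), w + (latt k, 0) = (w.1 + latt k, w.2) := by
    intro w k
    refine Prod.ext rfl ?_
    simp
  have hDp : ∀ w (k : Fin n → ℤ), fderiv ℝ k₂ (w.1 + latt k, w.2) = fderiv ℝ k₂ w := by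
    intro w k
    have h1 : (fun y => k₂ (y + (latt k, 0))) = k₂ := by
      funext y
      rw [htr]
      exact hG.p2 y k
    have h2 := fderiv_comp_add_right (𝕜 := ℝ) (f := k₂) (x := w) ((latt k, 0) : E n × E n)
    rw [h1, htr] at h2
    exact h2.symm
  obtain ⟨δ, hδ, hun⟩ := unif (fderiv ℝ k₂) hDc hDp R (ε := 1 / (16 * C')) (by positivity)
  set t : ℝ := min (min 1 (1 / (4 * C'))) (min (1 / (2 * (M + 1))) (δ / (2 * (M + 1)))) with ht
  have ht0 : 0 < t := by
    rw [ht]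
    refine lt_min (lt_min one_pos (by positivity)) (lt_min (by positivity) (by positivity))
  have ht1 : t ≤ 1 := (min_le_left _ _).trans (min_le_left _ _)
  have ht2 : t ≤ 1 / (4 * C') := (min_le_left _ _).trans (min_le_right _ _)
  have ht3 : t ≤ 1 / (2 * (M + 1)) := (min_le_right _ _).trans (min_le_left _ _)
  have ht4 : t ≤ δ / (2 * (M + 1)) := (min_le_right _ _).trans (min_le_right _ _)
  have htM : t * M ≤ 1 / 2 := by
    calc t * M ≤ 1 / (2 * (M + 1)) * (M + 1) := by gcongr; linarith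
      _ = 1 / 2 := by field_simp
  have htδ : t * M < δ := by
    calc t * M ≤ δ / (2 * (M + 1)) * (M + 1) := by gcongr; linarith
      _ = δ / 2 := by field_simp
      _ < δ := by linarith
  obtain ⟨Φ, c1, c2, per, sym, gen⟩ := Pool.Agent.Y522.ML.exists_gen K hG.hK hG.s1 hG.s2 hG.grad
    hG.p1 hG.p2 hG.l1 hG.l2 ht0.le htM
  refine ⟨t, Φ, ⟨c1, c2, per, sym, gen⟩, ?_⟩
  intro z hz a ha hb1
  -- differentiate the generating relation
  set w : E n × E n := ((Φ z).1, z.2) with hw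
  have hgen : ∀ z : E n × E n, (Φ z).1 = z.1 + t • k₂ ((Φ z).1, z.2) := by
    intro z
    obtain ⟨w', g1, g2, g3⟩ := gen z
    have e1 := congrArg Prod.fst g3
    simp only at e1
    have e2 : ((Φ z).1, z.2) = w' := Prod.ext e1 g1.symm
    rw [e2, e1]
    exact g2
  have hΦd : HasFDerivAt Φ (fderiv ℝ Φ z) z :=
    (c1.differentiable (by simp)).differentiableAt.hasFDerivAt
  have hrel : (fderiv ℝ Φ z a).1 = a.1 + t • fderiv ℝ k₂ w ((fderiv ℝ Φ z a).1, a.2) := by
    have d1 : HasFDerivAt (fun z => (Φ z).1)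
        ((ContinuousLinearMap.fst ℝ (E n) (E n)).comp (fderiv ℝ Φ z)) z :=
      (ContinuousLinearMap.fst ℝ (E n) (E n)).hasFDerivAt.comp z hΦd
    have d2 : HasFDerivAt (fun z : E n × E n => ((Φ z).1, z.2))
        (((ContinuousLinearMap.fst ℝ (E n) (E n)).comp (fderiv ℝ Φ z)).prod
          (ContinuousLinearMap.snd ℝ (E n) (E n))) z :=
      d1.prodMk (ContinuousLinearMap.snd ℝ (E n) (E n)).hasFDerivAt
    have hk : HasFDerivAt k₂ (fderiv ℝ k₂ w) w :=
      (hG.s2.differentiable (by simp)).differentiableAt.hasFDerivAt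
    have d3 := HasFDerivAt.comp (g := k₂) (f := fun z : E n × E n => ((Φ z).1, z.2)) z hk d2
    have d4 : HasFDerivAt (fun z : E n × E n => z.1 + t • k₂ ((Φ z).1, z.2))
        (ContinuousLinearMap.fst ℝ (E n) (E n) + t • (fderiv ℝ k₂ w).comp
          (((ContinuousLinearMap.fst ℝ (E n) (E n)).comp (fderiv ℝ Φ z)).prod
          (ContinuousLinearMap.snd ℝ (E n) (E n)))) z :=
      (ContinuousLinearMap.fst ℝ (E n) (E n)).hasFDerivAt.add (d3.const_smul t)
    have e : (fun z => (Φ z).1) = fun z : E n × E n => z.1 + t • k₂ ((Φ z).1, z.2) := funext hgen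
    rw [e] at d1
    have := congrArg (fun L : E n × E n →L[ℝ] E n => L a) (d1.unique d4)
    exact this
  rw [hb1] at hrel
  set β := fderiv ℝ k₂ z ((0 : E n), a.2) with hβ
  set er := fderiv ℝ k₂ w ((0 : E n), a.2) - β with her
  have hwz : ‖w - z‖ < δ := by
    have h1 : w - z = (t • k₂ w, 0) := by
      refine Prod.ext ?_ ?_
      · show (Φ z).1 - z.1 = t • k₂ w
        have := hgen z
        rw [← hw] at this
        rw [this]
        abel
      · simp [hw]
    rw [h1, Prod.norm_def]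
    simp only [norm_zero]
    refine max_lt ?_ hδ
    rw [norm_smul, Real.norm_of_nonneg ht0.le]
    exact (mul_le_mul_of_nonneg_left (hG.b2 w) ht0.le).trans_lt htδ
  have hen : ‖er‖ ≤ 1 / (16 * C') * ‖a.2‖ := by
    have h1 : er = (fderiv ℝ k₂ w - fderiv ℝ k₂ z) ((0 : E n), a.2) := rfl
    rw [h1]
    refine ((fderiv ℝ k₂ w - fderiv ℝ k₂ z).le_opNorm _).trans ?_
    have h2 : ‖((0 : E n), a.2)‖ = ‖a.2‖ := by
      rw [Prod.norm_def]
      simp
    rw [h2]
    exact mul_le_mul_of_nonneg_right (hun z w (hR z hz) hwz) (norm_nonneg _)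
  have ha1 : a.1 = -(t • (β + er)) := by
    have h1 : β + er = fderiv ℝ k₂ w ((0 : E n), a.2) := by rw [her]; abel
    rw [h1]
    exact eq_neg_of_add_eq_zero_left hrel.symm
  obtain ⟨i1, i2⟩ := hin z hz a ha
  rw [← hβ] at i1 i2
  -- numbers
  set X := ‖β‖ with hX
  set Y := ‖er‖ with hY
  set D := ‖a.2‖ with hD
  have hX0 : 0 ≤ X := norm_nonneg _
  have hY0 : 0 ≤ Y := norm_nonneg _
  have hD0 : 0 ≤ D := norm_nonneg _
  have n1 : ‖a.1‖ ≤ t * (X + Y) := by
    rw [ha1, norm_neg, norm_smul, Real.norm_of_nonneg ht0.le]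
    exact mul_le_mul_of_nonneg_left (norm_add_le _ _) ht0.le
  have n2 : D ≤ C' * (X + (X + Y)) := by
    have h1 : ‖a.1‖ ≤ X + Y := n1.trans (by nlinarith)
    calc D ≤ C * (X + ‖a.1‖) := i2
      _ ≤ C' * (X + (X + Y)) := by
          have : 0 ≤ X + ‖a.1‖ := by positivity
          gcongr
          rw [hC']; linarith
  have n3 : Y ≤ X / 4 := by
    have h1 : 1 / (16 * C') * D ≤ 1 / 16 * (X + (X + Y)) := by
      calc 1 / (16 * C') * D ≤ 1 / (16 * C') * (C' * (X + (X + Y))) := by gcongr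
        _ = 1 / 16 * (X + (X + Y)) := by field_simp
    have h2 := hen.trans h1
    linarith
  have n4 : X ^ 2 ≤ Y * X + C' * t * (X + Y) ^ 2 := by
    have h1 : ⟪a.1, β⟫ = -(t * (X ^ 2 + ⟪er, β⟫)) := by
      rw [ha1, inner_neg_left, inner_smul_left, inner_add_left, real_inner_self_eq_norm_sq]
      simp only [RCLike.conj_to_real]
      rfl
    have h2 : -⟪er, β⟫ ≤ Y * X := by
      have := abs_real_inner_le_norm er β
      have h3 := neg_abs_le ⟪er, β⟫
      linarith
    rw [h1] at i1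
    have h4 : ‖a.1‖ ^ 2 ≤ (t * (X + Y)) ^ 2 := pow_le_pow_left₀ (norm_nonneg _) n1 2
    have h5 : C * ‖a.1‖ ^ 2 ≤ C' * (t * (X + Y)) ^ 2 := by
      have : C ≤ C' := by rw [hC']; linarith
      gcongr
    have h6 : t * X ^ 2 ≤ t * (Y * X + C' * t * (X + Y) ^ 2) := by nlinarith
    exact le_of_mul_le_mul_left h6 ht0
  have n5 : C' * t ≤ 1 / 4 := by
    calc C' * t ≤ C' * (1 / (4 * C')) := by gcongr
      _ = 1 / 4 := by field_simp
  have n6 : X = 0 := by
    by_contra hne
    have hXp : 0 < X := lt_of_le_of_ne hX0 (Ne.symm hne)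
    have h1 : (X + Y) ^ 2 ≤ (5 / 4 * X) ^ 2 := by
      refine pow_le_pow_left₀ (by positivity) ?_ 2
      linarith
    have h2 : C' * t * (X + Y) ^ 2 ≤ 1 / 4 * (5 / 4 * X) ^ 2 := by
      have : 0 ≤ C' * t := by positivity
      gcongr
    have h3 : Y * X ≤ X / 4 * X := by gcongr
    nlinarith
  have n7 : Y = 0 := le_antisymm (by linarith) hY0
  have n8 : D = 0 := by
    rw [n6, n7] at n2
    simp at n2
    exact le_antisymm n2 hD0
  have f2 : a.2 = 0 := norm_eq_zero.1 n8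
  have f1 : a.1 = 0 := by
    have h1 : β = 0 := norm_eq_zero.1 n6
    have h2 : er = 0 := norm_eq_zero.1 n7
    rw [ha1, h1, h2]
    simp
  exact Prod.ext f1 f2

end Pool.Agent.D0H98.NL
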